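import Pool.Agent.R503.SIC.Exc2

/-!
# Incomplete quadratic Gauss sums with a window, by completion
-/

set_option autoImplicit false

open Finset Complex
open scoped ComplexConjugate

namespace Pool.Agent.Zk62.Sic

open Pool.Agent.R503.SIC

variable {p : ℕ} [NeZero p]

/-- the Fourier transform -/
noncomputable def ft (V : ZMod p → ℂ) (k : ZMod p) : ℂ := ∑ x, V x * e (k * x)

theorem parseval (V : ZMod p → ℂ) : ∑ k, ‖ft V k‖ ^ 2 = p * ∑ x, ‖V x‖ ^ 2 := by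
  have h1 : ((∑ k, ‖ft V k‖ ^ 2 : ℝ) : ℂ) = ((p * ∑ x, ‖V x‖ ^ 2 : ℝ) : ℂ) := by
    push_cast
    have h2 : ∀ k, ((‖ft V k‖ : ℂ)) ^ 2 = ∑ x, ∑ y, conj (V x) * V y * e (k * (y - x)) := by
      intro k
      have := conj_mul_self' (ft V k)
      push_cast at this
      rw [← this]
      unfold ft
      rw [map_sum, Finset.sum_mul_sum]
      refine Finset.sum_congr rfl fun x _ => Finset.sum_congr rfl fun y _ => ?_
      rw [map_mul, conj_e, mul_sub, sub_eq_add_neg, e_add, neg_mul_eq_neg_mul]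
      ring_nf
    rw [Finset.sum_congr rfl fun k _ => h2 k, Finset.sum_comm, Finset.mul_sum]
    refine Finset.sum_congr rfl fun x _ => ?_
    rw [Finset.sum_comm]
    have h3 : ∀ y, ∑ k, conj (V x) * V y * e (k * (y - x)) =
        if y = x then (p : ℂ) * (conj (V x) * V y) else 0 := by
      intro y
      rw [← Finset.mul_sum, sum_e]
      by_cases h : y = x
      · rw [if_pos h, if_pos (by rw [h, sub_self])]; ring
      · rw [if_neg h, if_neg (fun h' => h (sub_eq_zero.1 h')), mul_zero]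
    rw [Finset.sum_congr rfl fun y _ => h3 y, Finset.sum_ite_eq' univ x, if_pos (mem_univ x)]
    have := conj_mul_self' (V x)
    push_cast at this
    rw [this]
  exact_mod_cast h1

theorem inversion (V : ZMod p → ℂ) (x : ZMod p) :
    (p : ℂ) * V x = ∑ k, ft V k * e (-(k * x)) := by
  unfold ft
  have h1 : ∀ k, (∑ y, V y * e (k * y)) * e (-(k * x)) = ∑ y, V y * e (k * (y - x)) := by
    intro k
    rw [Finset.sum_mul]
    refine Finset.sum_congr rfl fun y _ => ?_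
    rw [mul_assoc, ← e_add]
    congr 2
    ring
  rw [Finset.sum_congr rfl fun k _ => h1 k, Finset.sum_comm]
  have h3 : ∀ y, ∑ k, V y * e (k * (y - x)) = if y = x then (p : ℂ) * V y else 0 := by
    intro y
    rw [← Finset.mul_sum, sum_e]
    by_cases h : y = x
    · rw [if_pos h, if_pos (by rw [h, sub_self])]; ring
    · rw [if_neg h, if_neg (fun h' => h (sub_eq_zero.1 h')), mul_zero]
  rw [Finset.sum_congr rfl fun y _ => h3 y, Finset.sum_ite_eq' univ x, if_pos (mem_univ x)]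

/-- completion: the sum of `V` against a quadratic phase is bounded by the Fourier transform -/
theorem completion (hp : p.Prime) (hp2 : 2 < p) (V : ZMod p → ℂ) {A : ZMod p} (hA : A ≠ 0)
    (B : ZMod p) :
    p * ‖∑ x, V x * e (A * x ^ 2 + B * x)‖ ^ 2 ≤ (∑ k, ‖ft V k‖) ^ 2 := by
  have hp0 : (0 : ℝ) < p := by exact_mod_cast hp.pos
  have h1 : (p : ℂ) * ∑ x, V x * e (A * x ^ 2 + B * x) =
      ∑ k, ft V k * ∑ x, e (A * x ^ 2 + (B - k) * x) := by
    rw [Finset.mul_sum]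
    simp_rw [Finset.mul_sum]
    rw [Finset.sum_comm]
    refine Finset.sum_congr rfl fun x _ => ?_
    rw [← mul_assoc, inversion, Finset.sum_mul]
    refine Finset.sum_congr rfl fun k _ => ?_
    rw [mul_assoc, ← e_add]
    congr 2
    ring
  have h2 : ∀ k, ‖∑ x, e (A * x ^ 2 + (B - k) * x)‖ = Real.sqrt p := by
    intro k
    rw [← quad hp hp2 hA (B - k), Real.sqrt_sq (norm_nonneg _)]
  have h3 : p * ‖∑ x, V x * e (A * x ^ 2 + B * x)‖ ≤ Real.sqrt p * ∑ k, ‖ft V k‖ := by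
    calc p * ‖∑ x, V x * e (A * x ^ 2 + B * x)‖ = ‖(p : ℂ) * ∑ x, V x * e (A * x ^ 2 + B * x)‖ := by
          rw [norm_mul, Complex.norm_natCast]
      _ ≤ ∑ k, ‖ft V k * ∑ x, e (A * x ^ 2 + (B - k) * x)‖ := by
          rw [h1]; exact norm_sum_le _ _
      _ = Real.sqrt p * ∑ k, ‖ft V k‖ := by
          rw [Finset.mul_sum]
          refine Finset.sum_congr rfl fun k _ => ?_
          rw [norm_mul, h2, mul_comm]
  have h4 := pow_le_pow_left₀ (by positivity) h3 2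
  rw [mul_pow, mul_pow, Real.sq_sqrt hp0.le] at h4
  have h5 : (p : ℝ) * (p * ‖∑ x, V x * e (A * x ^ 2 + B * x)‖ ^ 2) ≤ p * (∑ k, ‖ft V k‖) ^ 2 := by
    calc _ = (p : ℝ) ^ 2 * ‖∑ x, V x * e (A * x ^ 2 + B * x)‖ ^ 2 := by ring
      _ ≤ _ := h4
  exact le_of_mul_le_mul_left h5 hp0

theorem ft_shift (V : ZMod p → ℂ) (ρ : ℂ) (k : ZMod p) :
    ft (fun x => V (x + 1) - ρ * V x) k = (e (-k) - ρ) * ft V k := by
  unfold ft
  have h1 : ∑ x, V (x + 1) * e (k * x) = e (-k) * ∑ x, V x * e (k * x) := by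
    rw [Finset.mul_sum]
    refine Fintype.sum_equiv (Equiv.addRight 1) _ _ fun x => ?_
    simp only [Equiv.coe_addRight]
    rw [mul_left_comm, ← e_add]
    congr 2
    ring
  rw [sub_mul, ← h1, Finset.mul_sum, ← Finset.sum_sub_distrib]
  refine Finset.sum_congr rfl fun x _ => ?_
  ring

theorem poisson_id {z : ℂ} (hz : ‖z‖ = 1) {r : ℝ} (hr1 : r < 1) :
    1 + r / (1 - r) ^ 2 * ‖z - 1‖ ^ 2 = ‖1 - r * z‖ ^ 2 / (1 - r) ^ 2 := by
  have h0 : (1 - r) ^ 2 ≠ 0 := by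
    have : 0 < 1 - r := by linarith
    positivity
  have hz2 : z.re ^ 2 + z.im ^ 2 = 1 := by
    have := Complex.sq_norm z
    rw [hz, Complex.normSq_apply] at this
    nlinarith
  have h1 : ‖z - 1‖ ^ 2 = 2 - 2 * z.re := by
    rw [Complex.sq_norm, Complex.normSq_apply]
    simp only [Complex.sub_re, Complex.sub_im, Complex.one_re, Complex.one_im]
    nlinarith
  have h2 : ‖1 - r * z‖ ^ 2 = 1 + r ^ 2 - 2 * r * z.re := by
    rw [Complex.sq_norm, Complex.normSq_apply]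
    simp only [Complex.sub_re, Complex.sub_im, Complex.one_re, Complex.one_im, Complex.mul_re,
      Complex.mul_im, Complex.ofReal_re, Complex.ofReal_im]
    nlinarith
  rw [h1, h2]
  have h3 : 1 - r ≠ 0 := by
    have : 0 < 1 - r := by linarith
    exact this.ne'
  rw [eq_div_iff h0, add_mul, mul_right_comm, div_mul_cancel₀ _ h0]
  ring

theorem e_pow (k : ZMod p) (n : ℕ) : e k ^ n = e (k * (n : ZMod p)) := by
  induction n with
  | zero => simp [e_zero]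
  | succ n ih => rw [pow_succ, ih, ← e_add]; congr 1; push_cast; ring

/-- the sum of the Poisson kernel over the translates by roots of unity -/
theorem sum_kernel {τ : ℂ} (hτ : ‖τ‖ = 1) {r : ℝ} (hr0 : 0 ≤ r) (hr1 : r < 1) :
    ∑ k : ZMod p, (1 - r) ^ 2 / ‖1 - r * (e (-k) * τ)‖ ^ 2 ≤
      p * ((1 - r) / (1 + r)) * ((1 + r ^ p) / (1 - r ^ p)) := by
  have hp0 : 0 < p := Nat.pos_of_ne_zero (NeZero.ne p)
  have hrp : r ^ p < 1 := pow_lt_one₀ hr0 hr1 hp0.ne'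
  have hrp0 : 0 ≤ r ^ p := pow_nonneg hr0 p
  have h1 : ∀ k : ZMod p, (1 - r) ^ 2 / ‖1 - r * (e (-k) * τ)‖ ^ 2 ≤
      (1 - r) ^ 2 / (1 - r ^ p) ^ 2 * ‖ft (fun x : ZMod p => (r * τ : ℂ) ^ x.val) (-k)‖ ^ 2 := by
    intro k
    have h2 : ft (fun x : ZMod p => (r * τ : ℂ) ^ x.val) (-k) =
        ∑ n ∈ Finset.range p, (r * (e (-k) * τ)) ^ n := by
      unfold ft
      rw [← Fin.sum_univ_eq_sum_range]
      obtain ⟨q, rfl⟩ : ∃ q, p = q + 1 := ⟨p - 1, by omega⟩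
      refine Finset.sum_congr rfl fun x _ => ?_
      have : e (-k * x) = e (-k) ^ x.val := by
        rw [e_pow]
        congr 2
        exact (ZMod.natCast_zmod_val x).symm
      rw [this, ← mul_pow]
      change _ = (r * (e (-k) * τ)) ^ x.val
      congr 1
      ring
    have h3 : (1 - r * (e (-k) * τ)) * ∑ n ∈ Finset.range p, (r * (e (-k) * τ)) ^ n =
        1 - r ^ p * τ ^ p := by
      rw [mul_neg_geom_sum, mul_pow, mul_pow, e_pow, ZMod.natCast_self, mul_zero, e_zero, one_mul]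
    have h4 : 1 - r ^ p ≤ ‖1 - (r : ℂ) ^ p * τ ^ p‖ := by
      have h5 : ‖(r : ℂ) ^ p * τ ^ p‖ = r ^ p := by
        rw [norm_mul, norm_pow, norm_pow, hτ, one_pow, mul_one, Complex.norm_real,
          Real.norm_eq_abs, abs_of_nonneg hr0]
      have := norm_sub_norm_le (1 : ℂ) ((r : ℂ) ^ p * τ ^ p)
      rw [norm_one, h5] at this
      exact this
    rw [h2]
    set G := ∑ n ∈ Finset.range p, (r * (e (-k) * τ)) ^ n
    set D := 1 - r * (e (-k) * τ)
    have h6 : 1 - r ^ p ≤ ‖D‖ * ‖G‖ := by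
      rw [← norm_mul, h3]; exact h4
    have hD : 0 < ‖D‖ := by
      by_contra h
      have : ‖D‖ = 0 := le_antisymm (not_lt.1 h) (norm_nonneg _)
      rw [this, zero_mul] at h6
      linarith
    have h7 : 0 < 1 - r ^ p := by linarith
    rw [div_mul_eq_mul_div, div_le_div_iff₀ (by positivity) (by positivity)]
    have h8 := pow_le_pow_left₀ h7.le h6 2
    calc (1 - r) ^ 2 * (1 - r ^ p) ^ 2 ≤ (1 - r) ^ 2 * (‖D‖ * ‖G‖) ^ 2 :=
          mul_le_mul_of_nonneg_left h8 (by positivity)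
      _ = (1 - r) ^ 2 * ‖G‖ ^ 2 * ‖D‖ ^ 2 := by ring
  refine (Finset.sum_le_sum fun k _ => h1 k).trans ?_
  rw [← Finset.mul_sum]
  have h2 : ∑ k : ZMod p, ‖ft (fun x : ZMod p => (r * τ : ℂ) ^ x.val) (-k)‖ ^ 2 =
      p * ∑ n ∈ Finset.range p, (r ^ 2) ^ n := by
    rw [Fintype.sum_equiv (Equiv.neg (ZMod p))
      (fun k => ‖ft (fun x : ZMod p => (r * τ : ℂ) ^ x.val) (-k)‖ ^ 2)
      (fun k => ‖ft (fun x : ZMod p => (r * τ : ℂ) ^ x.val) k‖ ^ 2) (fun k => rfl), parseval,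
      ← Fin.sum_univ_eq_sum_range]
    congr 1
    obtain ⟨q, rfl⟩ : ∃ q, p = q + 1 := ⟨p - 1, by omega⟩
    refine Finset.sum_congr rfl fun x _ => ?_
    rw [norm_pow, norm_mul, hτ, mul_one, Complex.norm_real, Real.norm_eq_abs, abs_of_nonneg hr0,
      ← pow_mul, ← pow_mul, mul_comm]
    rfl
  have h3 : (1 - r ^ 2) * ∑ n ∈ Finset.range p, (r ^ 2) ^ n = 1 - (r ^ p) ^ 2 := by
    rw [mul_neg_geom_sum, ← pow_mul, ← pow_mul, mul_comm]
  have h4 : 0 < 1 - r ^ 2 := by nlinarith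
  have h5 : ∑ n ∈ Finset.range p, (r ^ 2) ^ n = (1 - (r ^ p) ^ 2) / (1 - r ^ 2) := by
    rw [eq_div_iff h4.ne', mul_comm]; exact h3
  rw [h2, h5]
  apply le_of_eq
  have h6 : 1 - r ^ 2 = (1 - r) * (1 + r) := by ring
  have h7 : 1 - (r ^ p) ^ 2 = (1 - r ^ p) * (1 + r ^ p) := by ring
  rw [h6, h7]
  have h8 : 1 - r ≠ 0 := by linarith
  have h9 : 1 + r ≠ 0 := by linarith
  have h10 : 1 - r ^ p ≠ 0 := by linarith
  field_simp

/-- The windowed quadratic sum. -/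
theorem windowed (hp : p.Prime) (hp2 : 2 < p) (V : ZMod p → ℂ) {A : ZMod p} (hA : A ≠ 0)
    (B : ZMod p) {ρ : ℂ} (hρ : ‖ρ‖ = 1) {r : ℝ} (hr0 : 0 ≤ r) (hr1 : r < 1) :
    ‖∑ x, V x * e (A * x ^ 2 + B * x)‖ ^ 2 ≤
      p * ((1 - r) / (1 + r)) * ((1 + r ^ p) / (1 - r ^ p)) *
        (∑ x, ‖V x‖ ^ 2 + r / (1 - r) ^ 2 * ∑ x, ‖V (x + 1) - ρ * V x‖ ^ 2) := by
  have hp0 : (0 : ℝ) < p := by exact_mod_cast hp.pos
  have h1r : 0 < 1 - r := by linarith
  set W : ZMod p → ℝ := fun k => 1 + r / (1 - r) ^ 2 * ‖e (-k) - ρ‖ ^ 2 with hW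
  have hW1 : ∀ k, 0 < W k := by
    intro k
    have : 0 ≤ r / (1 - r) ^ 2 * ‖e (-k) - ρ‖ ^ 2 := by positivity
    simp only [hW]; linarith
  have hρc : ‖conj ρ‖ = 1 := by rw [norm_conj', hρ]
  have h1 : ∀ k, 1 / W k = (1 - r) ^ 2 / ‖1 - r * (e (-k) * conj ρ)‖ ^ 2 := by
    intro k
    have hz : ‖e (-k) * conj ρ‖ = 1 := by rw [norm_mul, norm_e, hρc, one_mul]
    have h2 : ‖e (-k) - ρ‖ = ‖e (-k) * conj ρ - 1‖ := by
      have h3 : ρ * conj ρ = 1 := by
        rw [mul_comm, conj_mul_self', hρ]; norm_num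
      have h4 : e (-k) * conj ρ - 1 = (e (-k) - ρ) * conj ρ := by
        rw [sub_mul, h3]
      rw [h4, norm_mul, hρc, mul_one]
    simp only [hW]
    rw [h2, poisson_id hz hr1, one_div_div]
  have h2 : (∑ k, ‖ft V k‖) ^ 2 ≤ (∑ k, 1 / W k) * ∑ k, W k * ‖ft V k‖ ^ 2 := by
    have := Finset.sum_mul_sq_le_sq_mul_sq univ (fun k => Real.sqrt (1 / W k))
      (fun k => Real.sqrt (W k) * ‖ft V k‖)
    have e1 : ∀ k, Real.sqrt (1 / W k) * (Real.sqrt (W k) * ‖ft V k‖) = ‖ft V k‖ := by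
      intro k
      rw [← mul_assoc, ← Real.sqrt_mul (by have := hW1 k; positivity), one_div,
        inv_mul_cancel₀ (hW1 k).ne', Real.sqrt_one, one_mul]
    have e2 : ∀ k, Real.sqrt (1 / W k) ^ 2 = 1 / W k := fun k =>
      Real.sq_sqrt (by have := hW1 k; positivity)
    have e3 : ∀ k, (Real.sqrt (W k) * ‖ft V k‖) ^ 2 = W k * ‖ft V k‖ ^ 2 := fun k => by
      rw [mul_pow, Real.sq_sqrt (hW1 k).le]
    simp only [e1, e2, e3] at this
    exact this
  have h3 : ∑ k, W k * ‖ft V k‖ ^ 2 =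
      p * (∑ x, ‖V x‖ ^ 2 + r / (1 - r) ^ 2 * ∑ x, ‖V (x + 1) - ρ * V x‖ ^ 2) := by
    rw [mul_add, ← parseval, mul_left_comm, ← parseval (fun x => V (x + 1) - ρ * V x),
      Finset.mul_sum, ← Finset.sum_add_distrib]
    refine Finset.sum_congr rfl fun k _ => ?_
    rw [ft_shift, norm_mul, mul_pow]
    simp only [hW]
    ring
  have h4 : ∑ k, 1 / W k ≤ p * ((1 - r) / (1 + r)) * ((1 + r ^ p) / (1 - r ^ p)) := by
    rw [Finset.sum_congr rfl fun k _ => h1 k]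
    exact sum_kernel hρc hr0 hr1
  have h5 := completion hp hp2 V hA B
  set Q := ∑ x, ‖V x‖ ^ 2 + r / (1 - r) ^ 2 * ∑ x, ‖V (x + 1) - ρ * V x‖ ^ 2 with hQ
  have hQ0 : 0 ≤ Q := by positivity
  rw [h3] at h2
  have h6 : (p : ℝ) * ‖∑ x, V x * e (A * x ^ 2 + B * x)‖ ^ 2 ≤
      p * (p * ((1 - r) / (1 + r)) * ((1 + r ^ p) / (1 - r ^ p)) * Q) := by
    refine (h5.trans h2).trans ?_
    calc (∑ k, 1 / W k) * (p * Q) ≤
        (p * ((1 - r) / (1 + r)) * ((1 + r ^ p) / (1 - r ^ p))) * (p * Q) :=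
          mul_le_mul_of_nonneg_right h4 (by positivity)
      _ = _ := by ring
  exact le_of_mul_le_mul_left h6 hp0

end Pool.Agent.Zk62.Sic
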