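import Pool.Agent.Zk62.Sic.Win

/-!
# Vectors with small Weyl–Heisenberg overlaps in every dimension
-/

set_option autoImplicit false

open Finset Complex
open scoped ComplexConjugate

namespace Pool.Agent.Zk62.Sic

open Pool.Agent.R503.SIC

variable {d : ℕ}

theorem g_neg {p : ℕ} {θ : ℝ} {m : ℤ} (h : m < 0) : g d p θ m = 0 := by
  unfold g; rw [w_neg h.le]; simp

theorem g_big (hd : 0 < d) {p : ℕ} {θ : ℝ} {m : ℤ} (h : 2 * d ≤ m) : g d p θ m = 0 := by
  unfold g; rw [w_big hd h]; simp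

theorem norm_g {p : ℕ} {θ : ℝ} (m : ℤ) : ‖g d p θ m‖ ^ 2 = w d m ^ 2 := by
  unfold g
  have h1 : exp (2 * Real.pi * I * ((m : ℂ) ^ 3 / p + θ * m)) =
      exp (2 * Real.pi * I * (((m : ℝ) ^ 3 / p + θ * m : ℝ) : ℂ)) := by
    congr 1; push_cast; ring
  rw [norm_mul, h1, norm_exp', mul_one, Complex.norm_real, Real.norm_eq_abs, sq_abs]

/-- the vector -/
noncomputable def f (d p : ℕ) (θ : ℝ) (x : ZMod d) : ℂ := g d p θ x.val + g d p θ (x.val + d)

theorem f_int [NeZero d] {p : ℕ} {θ : ℝ} {y : ℤ} (hy0 : 0 ≤ y) (hy1 : y < 3 * d) :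
    f d p θ ((y : ℤ) : ZMod d) =
      g d p θ (y - 2 * d) + g d p θ (y - d) + g d p θ y + g d p θ (y + d) := by
  have hd : 0 < d := Nat.pos_of_ne_zero (NeZero.ne d)
  rw [per (d := d) (fun m h => g_neg h) (fun m h => g_big hd h) hy0 hy1]
  unfold f
  have : (((y : ZMod d).val : ℕ) : ℤ) = y % d := by
    rw [ZMod.val_intCast]
  rw [this]

/-- the decomposition of the overlap -/
theorem ov_eq [NeZero d] {p : ℕ} (hp : 2 * d ≤ p) (θ : ℝ) (a b : ZMod d) :
    ov (f d p θ) a b = T (g d p θ) ((b.val : ℝ) / d) p (a.val - 2 * d) +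
      T (g d p θ) ((b.val : ℝ) / d) p (a.val - d) + T (g d p θ) ((b.val : ℝ) / d) p a.val +
      T (g d p θ) ((b.val : ℝ) / d) p (a.val + d) := by
  have hd : 0 < d := Nat.pos_of_ne_zero (NeZero.ne d)
  set F : ℤ → ℂ := fun m => conj (f d p θ ((m : ZMod d) + a)) * e (b * (m : ZMod d)) * g d p θ m
    with hF
  have h1 : ov (f d p θ) a b = ∑ m ∈ range p, F m := by
    rw [sum_per (d := d) (F := F) (fun m h => by simp only [hF]; rw [g_big hd h, mul_zero]) hp,
      ← sum_zmod (p := d) (fun n : ℕ => F n + F (n + d))]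
    unfold ov
    refine Finset.sum_congr rfl fun x _ => ?_
    simp only [hF]
    have e1 : (((x.val : ℕ) : ℤ) : ZMod d) = x := by
      push_cast; exact ZMod.natCast_zmod_val x
    have e2 : ((((x.val : ℕ) : ℤ) + (d : ℤ) : ℤ) : ZMod d) = x := by
      push_cast; rw [ZMod.natCast_zmod_val x, ZMod.natCast_self, add_zero]
    rw [e1, e2]
    have e3 : f d p θ x = g d p θ x.val + g d p θ (x.val + d) := rfl
    rw [e3]
    ring
  have h2 : ∀ m ∈ range p, F m =
      conj (g d p θ (m + (a.val - 2 * d))) * g d p θ m * exp (2 * Real.pi * I * (((b.val : ℝ) / d : ℝ) * m)) +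
      conj (g d p θ (m + (a.val - d))) * g d p θ m * exp (2 * Real.pi * I * (((b.val : ℝ) / d : ℝ) * m)) +
      conj (g d p θ (m + a.val)) * g d p θ m * exp (2 * Real.pi * I * (((b.val : ℝ) / d : ℝ) * m)) +
      conj (g d p θ (m + (a.val + d))) * g d p θ m * exp (2 * Real.pi * I * (((b.val : ℝ) / d : ℝ) * m)) := by
    intro m _
    simp only [hF]
    rcases Nat.lt_or_ge m (2 * d) with h | h
    · have e1 : ((m : ℤ) : ZMod d) + a = (((m : ℤ) + a.val : ℤ) : ZMod d) := by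
        push_cast; rw [ZMod.natCast_zmod_val]
      have hav := ZMod.val_lt a
      have e2 : b * ((m : ℤ) : ZMod d) = (((b.val : ℤ) * m : ℤ) : ZMod d) := by
        push_cast; rw [ZMod.natCast_zmod_val]
      rw [e1, e2, f_int (by positivity) (by omega), e_int]
      have e3 : exp (2 * Real.pi * I * ((((b.val : ℤ) * m : ℤ) : ℂ) / d)) =
          exp (2 * Real.pi * I * (((b.val : ℝ) / d : ℝ) * m)) := by
        congr 1; push_cast; ring
      rw [e3, map_add, map_add, map_add]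
      have e4 : (m : ℤ) + a.val - 2 * d = m + (a.val - 2 * d) := by ring
      have e5 : (m : ℤ) + a.val - d = m + (a.val - d) := by ring
      have e6 : (m : ℤ) + a.val + d = m + (a.val + d) := by ring
      rw [e4, e5, e6]
      ring
    · have : g d p θ m = 0 := g_big hd (by exact_mod_cast h)
      simp [this]
  rw [h1, Finset.sum_congr rfl h2, Finset.sum_add_distrib, Finset.sum_add_distrib,
    Finset.sum_add_distrib]
  rfl

/-- the term without shift vanishes on the axis -/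
theorem T_zero [NeZero d] {p : ℕ} (hp : 2 * d ≤ p) (θ : ℝ) {b : ZMod d} (hb : b ≠ 0) :
    T (g d p θ) ((b.val : ℝ) / d) p 0 = 0 := by
  have hd : 0 < d := Nat.pos_of_ne_zero (NeZero.ne d)
  set F : ℤ → ℂ := fun m => e (b * (m : ZMod d)) * ((w d m ^ 2 : ℝ) : ℂ) with hF
  have h1 : T (g d p θ) ((b.val : ℝ) / d) p 0 = ∑ m ∈ range p, F m := by
    unfold T
    refine Finset.sum_congr rfl fun m _ => ?_
    simp only [hF]
    have e2 : b * ((m : ℤ) : ZMod d) = (((b.val : ℤ) * m : ℤ) : ZMod d) := by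
      push_cast; rw [ZMod.natCast_zmod_val]
    have e3 : exp (2 * Real.pi * I * ((((b.val : ℤ) * m : ℤ) : ℂ) / d)) =
        exp (2 * Real.pi * I * (((b.val : ℝ) / d : ℝ) * m)) := by
      congr 1; push_cast; ring
    rw [add_zero, conj_mul_self', norm_g, e2, e_int, e3]
    ring
  rw [h1, sum_per (d := d) (F := F) (fun m h => by simp only [hF]; rw [w_big hd h]; simp) hp]
  have h2 : ∀ n ∈ range d, F n + F (n + d) = e (b * ((n : ℤ) : ZMod d)) := by
    intro n hn
    rw [Finset.mem_range] at hn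
    simp only [hF]
    have e2 : (((n : ℤ) + (d : ℤ) : ℤ) : ZMod d) = ((n : ℤ) : ZMod d) := by
      push_cast; rw [ZMod.natCast_self, add_zero]
    rw [e2, ← mul_add, ← Complex.ofReal_add, w_sq hd (by positivity) (by exact_mod_cast hn)]
    simp
  rw [Finset.sum_congr rfl h2, ← sum_zmod (p := d) (fun n : ℕ => e (b * ((n : ℤ) : ZMod d)))]
  have h3 : ∀ x : ZMod d, e (b * (((x.val : ℕ) : ℤ) : ZMod d)) = e (x * b) := by
    intro x
    push_cast
    rw [ZMod.natCast_zmod_val, mul_comm]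
  rw [Finset.sum_congr rfl fun x _ => h3 x, sum_e, if_neg hb]

theorem sum_w (hd : 0 < d) {p : ℕ} (hp : 2 * d ≤ p) : ∑ m ∈ range p, w d m ^ 2 = d := by
  rw [sum_per (d := d) (F := fun m => w d m ^ 2) (fun m h => by rw [w_big hd h]; simp) hp]
  have h2 : ∀ n ∈ range d, w d n ^ 2 + w d (n + d) ^ 2 = 1 := by
    intro n hn
    rw [Finset.mem_range] at hn
    exact w_sq hd (by positivity) (by exact_mod_cast hn)
  rw [Finset.sum_congr rfl h2]
  simp

theorem sum_dw (hd : 0 < d) {p : ℕ} (hp : 2 * d ≤ p) :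
    ∑ m ∈ range p, dw d m ^ 2 ≤ Real.pi ^ 2 / (4 * d) := by
  have hd' : (d : ℝ) ≠ 0 := by exact_mod_cast hd.ne'
  rw [sum_per (d := d) (F := fun m => dw d m ^ 2) (fun m h => by rw [dw_big hd h]; simp) hp]
  have h2 : ∀ n ∈ range d, dw d n ^ 2 + dw d (n + d) ^ 2 ≤ Real.pi ^ 2 / (4 * d ^ 2) := by
    intro n hn
    rw [Finset.mem_range] at hn
    exact dw_sq hd (by positivity) (by exact_mod_cast hn)
  refine (Finset.sum_le_sum h2).trans ?_
  rw [Finset.sum_const, Finset.card_range, nsmul_eq_mul]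
  apply le_of_eq
  field_simp

/-- the quantity in the bound of `T_bound` -/
noncomputable def Qs (d p : ℕ) (lam : ℝ) (s : ℤ) : ℝ :=
  ∑ m ∈ range p, w d m ^ 2 * w d (m + s) ^ 2 + lam *
        ∑ m ∈ range p, (w d (m + 1) * w d (m + 1 + s) - w d m * w d (m + s)) ^ 2

theorem Qs_nonneg (d p : ℕ) {lam : ℝ} (hl : 0 ≤ lam) (s : ℤ) : 0 ≤ Qs d p lam s := by
  unfold Qs; positivity

theorem sum_Qs (hd : 0 < d) {p : ℕ} (hp : 2 * d ≤ p) {lam : ℝ} (hl : 0 ≤ lam) {A : ℤ} (hA0 : 0 ≤ A)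
    (hA1 : A < d) : Qs d p lam (A - 2 * d) + Qs d p lam (A - d) + Qs d p lam A + Qs d p lam (A + d) ≤
      d + lam * (Real.pi ^ 2 / d) := by
  have hd' : (d : ℝ) ≠ 0 := by exact_mod_cast hd.ne'
  have hw : ∀ y : ℤ, 0 ≤ y → y < 3 * d →
      w d (y - 2 * d) ^ 2 + w d (y - d) ^ 2 + w d y ^ 2 + w d (y + d) ^ 2 = 1 := by
    intro y h0 h1
    rw [per (d := d) (F := fun m => w d m ^ 2) (fun m h => by rw [w_neg h.le]; simp)
      (fun m h => by rw [w_big hd h]; simp) h0 h1]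
    exact w_sq hd (Int.emod_nonneg _ (by omega)) (Int.emod_lt_of_pos _ (by omega))
  have hdw : ∀ y : ℤ, 0 ≤ y → y < 3 * d →
      dw d (y - 2 * d) ^ 2 + dw d (y - d) ^ 2 + dw d y ^ 2 + dw d (y + d) ^ 2 ≤
        Real.pi ^ 2 / (4 * d ^ 2) := by
    intro y h0 h1
    rw [per (d := d) (F := fun m => dw d m ^ 2) (fun m h => by rw [dw_neg h]; simp)
      (fun m h => by rw [dw_big hd h]; simp) h0 h1]
    exact dw_sq hd (Int.emod_nonneg _ (by omega)) (Int.emod_lt_of_pos _ (by omega))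
  have h0 : ∑ m ∈ range p, w d m ^ 2 * w d (m + (A - 2 * d)) ^ 2 +
      ∑ m ∈ range p, w d m ^ 2 * w d (m + (A - d)) ^ 2 +
      ∑ m ∈ range p, w d m ^ 2 * w d (m + A) ^ 2 +
      ∑ m ∈ range p, w d m ^ 2 * w d (m + (A + d)) ^ 2 = d := by
    rw [← Finset.sum_add_distrib, ← Finset.sum_add_distrib, ← Finset.sum_add_distrib,
      ← sum_w hd hp]
    refine Finset.sum_congr rfl fun m _ => ?_
    rcases Nat.lt_or_ge m (2 * d) with h | h
    · have := hw (m + A) (by positivity) (by omega)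
      rw [show (m : ℤ) + (A - 2 * d) = m + A - 2 * d by ring,
        show (m : ℤ) + (A - d) = m + A - d by ring, show (m : ℤ) + (A + d) = m + A + d by ring]
      calc _ = w d m ^ 2 * (w d (m + A - 2 * d) ^ 2 + w d (m + A - d) ^ 2 + w d (m + A) ^ 2 +
            w d (m + A + d) ^ 2) := by ring
        _ = _ := by rw [this, mul_one]
    · rw [w_big hd (show (2 * d : ℤ) ≤ m by exact_mod_cast h)]; ring
  have hkey : ∀ (m : ℤ) (s : ℤ), (w d (m + 1) * w d (m + 1 + s) - w d m * w d (m + s)) ^ 2 ≤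
      2 * (dw d m ^ 2 * w d (m + 1 + s) ^ 2) + 2 * (w d m ^ 2 * dw d (m + s) ^ 2) := by
    intro m s
    have e1 : w d (m + 1) * w d (m + 1 + s) - w d m * w d (m + s) =
        dw d m * w d (m + 1 + s) + w d m * dw d (m + s) := by
      unfold dw
      rw [show m + s + 1 = m + 1 + s by ring]
      ring
    rw [e1]
    nlinarith [sq_nonneg (dw d m * w d (m + 1 + s) - w d m * dw d (m + s))]
  have h1 : ∑ m ∈ range p, (w d (m + 1) * w d (m + 1 + (A - 2 * d)) - w d m * w d (m + (A - 2 * d))) ^ 2 +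
      ∑ m ∈ range p, (w d (m + 1) * w d (m + 1 + (A - d)) - w d m * w d (m + (A - d))) ^ 2 +
      ∑ m ∈ range p, (w d (m + 1) * w d (m + 1 + A) - w d m * w d (m + A)) ^ 2 +
      ∑ m ∈ range p, (w d (m + 1) * w d (m + 1 + (A + d)) - w d m * w d (m + (A + d))) ^ 2 ≤
      Real.pi ^ 2 / d := by
    rw [← Finset.sum_add_distrib, ← Finset.sum_add_distrib, ← Finset.sum_add_distrib]
    have h2 : ∀ m ∈ range p, (w d (m + 1) * w d (m + 1 + (A - 2 * d)) - w d m * w d (m + (A - 2 * d))) ^ 2 +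
      (w d (m + 1) * w d (m + 1 + (A - d)) - w d m * w d (m + (A - d))) ^ 2 +
      (w d (m + 1) * w d (m + 1 + A) - w d m * w d (m + A)) ^ 2 +
      (w d (m + 1) * w d (m + 1 + (A + d)) - w d m * w d (m + (A + d))) ^ 2 ≤
        2 * dw d m ^ 2 + 2 * w d m ^ 2 * (Real.pi ^ 2 / (4 * d ^ 2)) := by
      intro m _
      refine (add_le_add (add_le_add (add_le_add (hkey m _) (hkey m _)) (hkey m _)) (hkey m _)).trans ?_
      rcases Nat.lt_or_ge m (2 * d) with h | h
      · have i1 := hw (m + 1 + A) (by positivity) (by omega)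
        have i2 := hdw (m + A) (by positivity) (by omega)
        rw [show (m : ℤ) + 1 + (A - 2 * d) = m + 1 + A - 2 * d by ring,
          show (m : ℤ) + 1 + (A - d) = m + 1 + A - d by ring,
          show (m : ℤ) + 1 + (A + d) = m + 1 + A + d by ring,
          show (m : ℤ) + (A - 2 * d) = m + A - 2 * d by ring,
          show (m : ℤ) + (A - d) = m + A - d by ring, show (m : ℤ) + (A + d) = m + A + d by ring]
        calc _ = 2 * dw d m ^ 2 * (w d (m + 1 + A - 2 * d) ^ 2 + w d (m + 1 + A - d) ^ 2 +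
              w d (m + 1 + A) ^ 2 + w d (m + 1 + A + d) ^ 2) +
              2 * w d m ^ 2 * (dw d (m + A - 2 * d) ^ 2 + dw d (m + A - d) ^ 2 +
              dw d (m + A) ^ 2 + dw d (m + A + d) ^ 2) := by ring
          _ ≤ _ := by
            rw [i1, mul_one]
            have : 2 * w d m ^ 2 * (dw d (m + A - 2 * d) ^ 2 + dw d (m + A - d) ^ 2 +
              dw d (m + A) ^ 2 + dw d (m + A + d) ^ 2) ≤
                2 * w d m ^ 2 * (Real.pi ^ 2 / (4 * d ^ 2)) :=
              mul_le_mul_of_nonneg_left i2 (by positivity)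
            linarith
      · have hm : (2 * d : ℤ) ≤ m := by exact_mod_cast h
        rw [w_big hd hm, dw_big hd hm]
        simp
    refine (Finset.sum_le_sum h2).trans ?_
    rw [Finset.sum_add_distrib, ← Finset.mul_sum, ← Finset.sum_mul, ← Finset.mul_sum, sum_w hd hp]
    have := sum_dw hd hp
    calc 2 * ∑ m ∈ range p, dw d m ^ 2 + 2 * (d : ℝ) * (Real.pi ^ 2 / (4 * d ^ 2)) ≤
        2 * (Real.pi ^ 2 / (4 * d)) + 2 * (d : ℝ) * (Real.pi ^ 2 / (4 * d ^ 2)) := by linarith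
      _ = Real.pi ^ 2 / d := by field_simp; ring
  unfold Qs
  have h3 := mul_le_mul_of_nonneg_left h1 hl
  linarith

/-- the bound for the overlaps -/
theorem ov_bound [NeZero d] {p : ℕ} [NeZero p] (hp : p.Prime) (hp3 : 3 < p) (hdp : 2 * d < p)
    (θ : ℝ) {a b : ZMod d} (hab : (a, b) ≠ (0, 0)) {r : ℝ} (hr0 : 0 ≤ r) (hr1 : r < 1) :
    ‖ov (f d p θ) a b‖ ^ 2 ≤ 4 * (p * ((1 - r) / (1 + r)) * ((1 + r ^ p) / (1 - r ^ p)) *
      (d + r / (1 - r) ^ 2 * (Real.pi ^ 2 / d))) := by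
  have hd : 0 < d := Nat.pos_of_ne_zero (NeZero.ne d)
  have hrp : r ^ p < 1 := pow_lt_one₀ hr0 hr1 hp.pos.ne'
  have hrp0 : 0 ≤ r ^ p := pow_nonneg hr0 p
  set S : ℝ := p * ((1 - r) / (1 + r)) * ((1 + r ^ p) / (1 - r ^ p)) with hS
  have hS0 : 0 ≤ S := by
    have i1 : 0 < 1 - r := by linarith
    have i2 : 0 < 1 - r ^ p := by linarith
    exact mul_nonneg (mul_nonneg (Nat.cast_nonneg p) (div_nonneg i1.le (by linarith)))
      (div_nonneg (by linarith) i2.le)
  have hl : 0 ≤ r / (1 - r) ^ 2 := by positivity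
  have hT : ∀ s : ℤ, -(2 * d : ℤ) ≤ s → s ≤ 2 * d → (s = 0 → T (g d p θ) ((b.val : ℝ) / d) p 0 = 0) →
      ‖T (g d p θ) ((b.val : ℝ) / d) p s‖ ^ 2 ≤ S * Qs d p (r / (1 - r) ^ 2) s := by
    intro s h1 h2 h3
    by_cases h : s = 0
    · rw [h, h3 h]
      have := mul_nonneg hS0 (Qs_nonneg d p hl 0)
      simpa using this
    · exact T_bound hd hp hp3 hdp θ _ h h1 h2 hr0 hr1
  have ha := ZMod.val_lt a
  have ha0 : (a.val : ℤ) = 0 → T (g d p θ) ((b.val : ℝ) / d) p 0 = 0 := by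
    intro h
    have h' : a = 0 := by
      have : a.val = 0 := by exact_mod_cast h
      exact (ZMod.val_eq_zero a).1 this
    have hb : b ≠ 0 := by
      intro hb
      exact hab (by rw [h', hb])
    exact T_zero hdp.le θ hb
  have t1 := hT (a.val - 2 * d) (by omega) (by omega) (by omega)
  have t2 := hT (a.val - d) (by omega) (by omega) (by omega)
  have t3 := hT a.val (by omega) (by omega) ha0
  have t4 := hT (a.val + d) (by omega) (by omega) (by omega)
  have hsum := sum_Qs hd hdp.le hl (A := a.val) (by positivity) (by exact_mod_cast ha)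
  rw [ov_eq hdp.le]
  set x1 := T (g d p θ) ((b.val : ℝ) / d) p (a.val - 2 * d)
  set x2 := T (g d p θ) ((b.val : ℝ) / d) p (a.val - d)
  set x3 := T (g d p θ) ((b.val : ℝ) / d) p a.val
  set x4 := T (g d p θ) ((b.val : ℝ) / d) p (a.val + d)
  have hn : ‖x1 + x2 + x3 + x4‖ ≤ ‖x1‖ + ‖x2‖ + ‖x3‖ + ‖x4‖ := by
    refine (norm_add_le _ _).trans (add_le_add_left ?_ _)
    exact norm_add₃_le
  have hn2 : ‖x1 + x2 + x3 + x4‖ ^ 2 ≤ 4 * (‖x1‖ ^ 2 + ‖x2‖ ^ 2 + ‖x3‖ ^ 2 + ‖x4‖ ^ 2) := by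
    refine (pow_le_pow_left₀ (norm_nonneg _) hn 2).trans ?_
    nlinarith [sq_nonneg (‖x1‖ - ‖x2‖), sq_nonneg (‖x1‖ - ‖x3‖), sq_nonneg (‖x1‖ - ‖x4‖),
      sq_nonneg (‖x2‖ - ‖x3‖), sq_nonneg (‖x2‖ - ‖x4‖), sq_nonneg (‖x3‖ - ‖x4‖)]
  refine hn2.trans ?_
  have h5 := mul_le_mul_of_nonneg_left hsum hS0
  nlinarith

/-- the norm -/
theorem norm_f [NeZero d] (p : ℕ) : ∃ θ : ℝ, (d : ℝ) ≤ ∑ x, ‖f d p θ x‖ ^ 2 := by
  have hd : 0 < d := Nat.pos_of_ne_zero (NeZero.ne d)
  have hd' : (d : ℝ) ≠ 0 := by exact_mod_cast hd.ne'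
  have hdc : (d : ℂ) ≠ 0 := by exact_mod_cast hd.ne'
  set c : ℂ := ∑ n ∈ range d, g d p 0 n * conj (g d p 0 (n + d)) with hc
  refine ⟨arg c / (2 * Real.pi * d), ?_⟩
  set θ : ℝ := arg c / (2 * Real.pi * d) with hθ
  have hg : ∀ m : ℤ, g d p θ m = g d p 0 m * exp (2 * Real.pi * I * (θ * m : ℝ)) := by
    intro m
    unfold g
    rw [mul_assoc ((w d m : ℝ) : ℂ), ← exp_add]
    congr 2
    push_cast
    ring
  have h1 : ∀ n ∈ range d, ‖g d p θ n + g d p θ (n + d)‖ ^ 2 =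
      1 + 2 * (g d p 0 n * conj (g d p 0 (n + d)) * exp (-(arg c : ℂ) * I)).re := by
    intro n hn
    rw [Finset.mem_range] at hn
    rw [Complex.sq_norm, Complex.normSq_add, ← Complex.sq_norm, ← Complex.sq_norm, norm_g, norm_g,
      w_sq hd (by positivity) (by exact_mod_cast hn), hg, hg]
    congr 3
    rw [map_mul, conj_exp']
    have e1 : exp (-(arg c : ℂ) * I) = exp (2 * Real.pi * I * (θ * ((n : ℤ) : ℝ) : ℝ)) *
        exp (2 * Real.pi * I * (-((θ * (((n : ℤ) + d : ℤ) : ℝ) : ℝ) : ℂ))) := by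
      rw [← exp_add]
      congr 1
      have hpi : (Real.pi : ℂ) ≠ 0 := by exact_mod_cast Real.pi_ne_zero
      rw [hθ]
      push_cast
      field_simp
      ring
    rw [e1]
    ring
  have h2 : ∑ x, ‖f d p θ x‖ ^ 2 = ∑ n ∈ range d, ‖g d p θ n + g d p θ (n + d)‖ ^ 2 := by
    rw [← sum_zmod (p := d) (fun n : ℕ => ‖g d p θ n + g d p θ (n + d)‖ ^ 2)]
    rfl
  rw [h2, Finset.sum_congr rfl h1, Finset.sum_add_distrib, ← Finset.mul_sum, ← Complex.re_sum,
    ← Finset.sum_mul, ← hc]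
  have h3 : c * exp (-(arg c : ℂ) * I) = (‖c‖ : ℂ) := by
    conv_lhs => rw [← Complex.norm_mul_exp_arg_mul_I c]
    rw [mul_assoc, ← exp_add]
    have : (arg ((‖c‖ : ℂ) * exp (arg c * I)) : ℂ) = arg c := by
      rw [Complex.norm_mul_exp_arg_mul_I c]
    rw [this]
    simp
  rw [h3, Complex.ofReal_re]
  have := norm_nonneg c
  simp
  
theorem exp_six : Real.exp (-6) ≤ 1 / 400 := by
  rw [Real.exp_neg, one_div]
  apply inv_anti₀ (by norm_num)
  have h := Real.exp_one_gt_d9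
  have h1 : Real.exp 6 = Real.exp 1 ^ 6 := by
    rw [← Real.exp_nat_mul]; norm_num
  rw [h1]
  have h2 : (2.7182 : ℝ) ^ 6 ≤ Real.exp 1 ^ 6 := pow_le_pow_left₀ (by norm_num) (by linarith) 6
  refine le_trans ?_ h2
  norm_num

/-- Vectors with small overlaps in all dimensions `d ≥ 53`. -/
theorem large (hd : 53 ≤ d) : ∃ (_ : NeZero d) (ψ : ZMod d → ℂ), ∑ j, ‖ψ j‖ ^ 2 = 1 ∧
    ∀ a b : ZMod d, (a, b) ≠ (0, 0) → ((d : ℝ) + 1) * ‖ov ψ a b‖ ^ 2 ≤ 54 := by
  have : NeZero d := ⟨by omega⟩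
  refine ⟨inferInstance, ?_⟩
  obtain ⟨p, hp, hp1, hp2⟩ := Nat.exists_prime_lt_and_le_two_mul (2 * d) (by omega)
  have : NeZero p := ⟨hp.ne_zero⟩
  obtain ⟨θ, hθ⟩ := norm_f (d := d) p
  set N := ∑ x, ‖f d p θ x‖ ^ 2 with hN
  have hD : (53 : ℝ) ≤ d := by exact_mod_cast hd
  have hD0 : (0 : ℝ) < d := by linarith
  have hN0 : 0 < N := by linarith
  have hsN : Real.sqrt N ^ 2 = N := Real.sq_sqrt hN0.le
  have hsN0 : 0 < Real.sqrt N := Real.sqrt_pos.2 hN0
  refine ⟨fun x => ((1 / Real.sqrt N : ℝ) : ℂ) * f d p θ x, ?_, ?_⟩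
  · have h1 : ∀ j, ‖((1 / Real.sqrt N : ℝ) : ℂ) * f d p θ j‖ ^ 2 = 1 / N * ‖f d p θ j‖ ^ 2 := by
      intro j
      rw [norm_mul, mul_pow, Complex.norm_real, Real.norm_eq_abs, sq_abs, div_pow, hsN, one_pow]
    rw [Finset.sum_congr rfl fun j _ => h1 j, ← Finset.mul_sum, ← hN]
    field_simp
  · intro a b hab
    have h0 : ov (fun x => ((1 / Real.sqrt N : ℝ) : ℂ) * f d p θ x) a b =
        ((1 / N : ℝ) : ℂ) * ov (f d p θ) a b := by
      unfold ov
      rw [Finset.mul_sum]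
      refine Finset.sum_congr rfl fun j _ => ?_
      rw [map_mul, Complex.conj_ofReal]
      have : ((1 / N : ℝ) : ℂ) = ((1 / Real.sqrt N : ℝ) : ℂ) * ((1 / Real.sqrt N : ℝ) : ℂ) := by
        rw [← Complex.ofReal_mul]
        congr 1
        rw [← sq, div_pow, hsN, one_pow]
      rw [this]
      ring
    rw [h0, norm_mul, mul_pow, Complex.norm_real, Real.norm_eq_abs, sq_abs]
    set r : ℝ := 1 - 3 / d with hr
    have h3d : 3 / (d : ℝ) ≤ 3 / 53 := div_le_div_of_nonneg_left (by norm_num) (by norm_num) hD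
    have h3d0 : 0 < 3 / (d : ℝ) := by positivity
    have hr0 : 0 ≤ r := by rw [hr]; linarith
    have hr1 : r < 1 := by rw [hr]; linarith
    have hb := ov_bound hp (by omega) hp1 θ hab hr0 hr1
    have hpR : (p : ℝ) ≤ 4 * d := by
      have : p ≤ 4 * d := by omega
      exact_mod_cast this
    have hpR2 : 2 * (d : ℝ) ≤ p := by exact_mod_cast hp1.le
    have hrp : r ^ p ≤ 1 / 400 := by
      have i1 : r ≤ Real.exp (-(3 / d)) := by
        have := Real.add_one_le_exp (-(3 / (d : ℝ)))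
        rw [hr]; linarith
      calc r ^ p ≤ Real.exp (-(3 / d)) ^ p := pow_le_pow_left₀ hr0 i1 p
        _ = Real.exp (p * -(3 / d)) := by rw [← Real.exp_nat_mul]
        _ ≤ Real.exp (-6) := by
            apply Real.exp_le_exp.2
            have : (6 : ℝ) ≤ p * (3 / d) := by
              calc (6 : ℝ) = 2 * d * (3 / d) := by field_simp; norm_num
                _ ≤ p * (3 / d) := mul_le_mul_of_nonneg_right hpR2 h3d0.le
            linarith
        _ ≤ 1 / 400 := exp_six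
    have hrp0 : 0 ≤ r ^ p := pow_nonneg hr0 p
    have b1 : (p : ℝ) * ((1 - r) / (1 + r)) ≤ 636 / 103 := by
      have e1 : 1 - r = 3 / d := by rw [hr]; ring
      have e2 : 103 / 53 ≤ 1 + r := by rw [hr]; linarith
      rw [e1, ← mul_div_assoc, div_le_iff₀ (by linarith)]
      calc (p : ℝ) * (3 / d) ≤ 4 * d * (3 / d) := mul_le_mul_of_nonneg_right hpR h3d0.le
        _ = 12 := by field_simp; norm_num
        _ = 636 / 103 * (103 / 53) := by norm_num
        _ ≤ 636 / 103 * (1 + r) := by linarith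
    have b2 : (1 + r ^ p) / (1 - r ^ p) ≤ 401 / 399 := by
      rw [div_le_div_iff₀ (by linarith) (by norm_num)]
      linarith
    have b20 : 0 ≤ (1 + r ^ p) / (1 - r ^ p) := div_nonneg (by linarith) (by linarith)
    have b3 : (d : ℝ) + r / (1 - r) ^ 2 * (Real.pi ^ 2 / d) ≤ 2.1025 * d := by
      have e1 : 1 - r = 3 / d := by rw [hr]; ring
      have hpi : Real.pi ^ 2 ≤ 9.9225 := by
        have := Real.pi_lt_d2
        have := Real.pi_pos
        nlinarith
      have e2 : r / (1 - r) ^ 2 * (Real.pi ^ 2 / d) ≤ 1 / (3 / d) ^ 2 * (9.9225 / d) := by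
        rw [e1]
        apply mul_le_mul
        · exact div_le_div_of_nonneg_right hr1.le (by positivity)
        · exact div_le_div_of_nonneg_right hpi hD0.le
        · positivity
        · positivity
      have e3 : 1 / (3 / (d : ℝ)) ^ 2 * (9.9225 / d) = 1.1025 * d := by
        field_simp; norm_num
      linarith
    have b4 : ‖ov (f d p θ) a b‖ ^ 2 ≤ 52.3 * d := by
      refine hb.trans ?_
      have c1 : (p : ℝ) * ((1 - r) / (1 + r)) * ((1 + r ^ p) / (1 - r ^ p)) ≤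
          636 / 103 * (401 / 399) := mul_le_mul b1 b2 b20 (by norm_num)
      have c0 : 0 ≤ (d : ℝ) + r / (1 - r) ^ 2 * (Real.pi ^ 2 / d) := by positivity
      have c2 := mul_le_mul c1 b3 c0 (by norm_num)
      calc _ ≤ 4 * ((636 : ℝ) / 103 * (401 / 399) * (2.1025 * (d : ℝ))) := by linarith
        _ ≤ 52.3 * (d : ℝ) := by nlinarith
    have b5 : (1 / N) ^ 2 ≤ (1 / (d : ℝ)) ^ 2 := by
      apply pow_le_pow_left₀ (by positivity)
      exact one_div_le_one_div_of_le hD0 hθ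
    calc ((d : ℝ) + 1) * ((1 / N) ^ 2 * ‖ov (f d p θ) a b‖ ^ 2) ≤
        ((d : ℝ) + 1) * ((1 / (d : ℝ)) ^ 2 * (52.3 * d)) := by
          apply mul_le_mul_of_nonneg_left _ (by positivity)
          exact mul_le_mul b5 b4 (by positivity) (by positivity)
      _ = 52.3 + 52.3 / (d : ℝ) := by field_simp
      _ ≤ 54 := by
          have : 52.3 / (d : ℝ) ≤ 52.3 / 53 := div_le_div_of_nonneg_left (by norm_num) (by norm_num) hD
          have h2 : (52.3 : ℝ) / 53 ≤ 1 := by norm_num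
          linarith

end Pool.Agent.Zk62.Sic
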