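import Pool.Agent.Zk62.Sic.Comp

/-!
# The window and the correlations of the windowed cubic phases
-/

set_option autoImplicit false

open Finset Complex
open scoped ComplexConjugate

namespace Pool.Agent.Zk62.Sic

open Pool.Agent.R503.SIC

/-- the window -/
noncomputable def w (d : ℕ) (m : ℤ) : ℝ :=
  if 0 ≤ m ∧ m ≤ 2 * d then Real.sin (Real.pi * m / (2 * d)) else 0

variable {d : ℕ}

theorem w_mid {m : ℤ} (h0 : 0 ≤ m) (h1 : m ≤ 2 * d) :
    w d m = Real.sin (Real.pi * m / (2 * d)) := by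
  unfold w; rw [if_pos ⟨h0, h1⟩]

theorem w_neg {m : ℤ} (h : m ≤ 0) : w d m = 0 := by
  rcases h.lt_or_eq with h | h
  · unfold w; rw [if_neg]; rintro ⟨h1, -⟩; omega
  · rw [h, w_mid le_rfl (by positivity)]; simp

theorem w_big (hd : 0 < d) {m : ℤ} (h : 2 * d ≤ m) : w d m = 0 := by
  rcases h.lt_or_eq with h | h
  · unfold w; rw [if_neg]; rintro ⟨-, h1⟩; omega
  · rw [w_mid (by omega) (by omega), ← h]
    have hd' : (d : ℝ) ≠ 0 := by exact_mod_cast hd.ne'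
    have : Real.pi * ((2 * d : ℤ) : ℝ) / (2 * d) = Real.pi := by
      push_cast; field_simp
    rw [this, Real.sin_pi]

theorem w_abs (m : ℤ) : |w d m| ≤ 1 := by
  unfold w
  split_ifs
  · exact Real.abs_sin_le_one _
  · simp

theorem w_sq (hd : 0 < d) {y : ℤ} (h0 : 0 ≤ y) (h1 : y < d) : w d y ^ 2 + w d (y + d) ^ 2 = 1 := by
  have hd' : (d : ℝ) ≠ 0 := by exact_mod_cast hd.ne'
  rw [w_mid h0 (by omega), w_mid (by omega) (by omega)]
  have : Real.pi * ((y + d : ℤ) : ℝ) / (2 * d) = Real.pi * y / (2 * d) + Real.pi / 2 := by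
    push_cast; field_simp
  rw [this, Real.sin_add_pi_div_two, Real.sin_sq_add_cos_sq]

/-- the difference -/
noncomputable def dw (d : ℕ) (m : ℤ) : ℝ := w d (m + 1) - w d m

theorem dw_neg {m : ℤ} (h : m < 0) : dw d m = 0 := by
  unfold dw; rw [w_neg (by omega), w_neg (by omega), sub_zero]

theorem dw_big (hd : 0 < d) {m : ℤ} (h : 2 * d ≤ m) : dw d m = 0 := by
  unfold dw; rw [w_big hd (by omega), w_big hd h, sub_zero]

theorem dw_sq (hd : 0 < d) {y : ℤ} (h0 : 0 ≤ y) (h1 : y < d) :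
    dw d y ^ 2 + dw d (y + d) ^ 2 ≤ Real.pi ^ 2 / (4 * d ^ 2) := by
  have hd' : (d : ℝ) ≠ 0 := by exact_mod_cast hd.ne'
  have hd0 : (1 : ℝ) ≤ d := by exact_mod_cast hd
  unfold dw
  rw [w_mid h0 (by omega), w_mid (by omega) (by omega), w_mid (by omega) (by omega),
    w_mid (by omega) (by omega)]
  have e1 : Real.pi * ((y + d : ℤ) : ℝ) / (2 * d) = Real.pi * y / (2 * d) + Real.pi / 2 := by
    push_cast; field_simp
  have e2 : Real.pi * ((y + d + 1 : ℤ) : ℝ) / (2 * d) =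
      Real.pi * ((y + 1 : ℤ) : ℝ) / (2 * d) + Real.pi / 2 := by
    push_cast; field_simp; ring
  rw [e1, e2, Real.sin_add_pi_div_two, Real.sin_add_pi_div_two, Real.sin_sub_sin, Real.cos_sub_cos]
  have e3 : (Real.pi * ((y + 1 : ℤ) : ℝ) / (2 * d) - Real.pi * y / (2 * d)) / 2 =
      Real.pi / (4 * d) := by
    push_cast; field_simp; ring_nf
  rw [e3]
  set u := (Real.pi * ((y + 1 : ℤ) : ℝ) / (2 * d) + Real.pi * y / (2 * d)) / 2
  have h2 : (2 * Real.sin (Real.pi / (4 * d)) * Real.cos u) ^ 2 +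
      (-2 * Real.sin u * Real.sin (Real.pi / (4 * d))) ^ 2 =
      4 * Real.sin (Real.pi / (4 * d)) ^ 2 := by
    have := Real.sin_sq_add_cos_sq u
    calc _ = 4 * Real.sin (Real.pi / (4 * d)) ^ 2 * (Real.sin u ^ 2 + Real.cos u ^ 2) := by ring
      _ = _ := by rw [this, mul_one]
  rw [h2]
  have h3 : 0 ≤ Real.pi / (4 * d) := by positivity
  have h4 : Real.pi / (4 * d) ≤ Real.pi := by
    apply div_le_self Real.pi_pos.le; linarith
  have h5 : Real.sin (Real.pi / (4 * d)) ^ 2 ≤ (Real.pi / (4 * d)) ^ 2 :=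
    pow_le_pow_left₀ (Real.sin_nonneg_of_nonneg_of_le_pi h3 h4) (Real.sin_le h3) 2
  calc 4 * Real.sin (Real.pi / (4 * d)) ^ 2 ≤ 4 * (Real.pi / (4 * d)) ^ 2 := by linarith
    _ = Real.pi ^ 2 / (4 * d ^ 2) := by field_simp

/-- periodisation -/
theorem per {M : Type*} [AddCommMonoid M] {F : ℤ → M} (h0 : ∀ m, m < 0 → F m = 0)
    (h1 : ∀ m : ℤ, 2 * d ≤ m → F m = 0) {y : ℤ} (hy0 : 0 ≤ y) (hy1 : y < 3 * d) :
    F (y - 2 * d) + F (y - d) + F y + F (y + d) = F (y % d) + F (y % d + d) := by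
  have hd : 0 < d := by omega
  rcases lt_or_ge y d with h | h
  · rw [Int.emod_eq_of_lt hy0 h, h0 (y - 2 * d) (by omega), h0 (y - d) (by omega), zero_add,
      zero_add]
  rcases lt_or_ge y (2 * d) with h' | h'
  · have : y % d = y - d := by
      rw [← Int.sub_emod_right, Int.emod_eq_of_lt (by omega) (by omega)]
    rw [this, h0 (y - 2 * d) (by omega), h1 (y + d) (by omega), zero_add, add_zero]
    congr 2
    ring
  · have : y % d = y - 2 * d := by
      rw [← Int.sub_emod_right, ← Int.sub_emod_right, Int.emod_eq_of_lt (by omega) (by omega)]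
      ring
    rw [this, h1 y h', h1 (y + d) (by omega), add_zero, add_zero]
    congr 2
    ring

theorem sum_per {M : Type*} [AddCommMonoid M] {F : ℤ → M}
    (h1 : ∀ m : ℤ, 2 * d ≤ m → F m = 0) {p : ℕ} (hp : 2 * d ≤ p) :
    ∑ m ∈ range p, F m = ∑ n ∈ range d, (F n + F (n + d)) := by
  obtain ⟨q, rfl⟩ := Nat.exists_eq_add_of_le hp
  rw [Finset.sum_range_add]
  have h2 : ∑ x ∈ range q, F ((2 * d + x : ℕ) : ℤ) = 0 := by
    refine Finset.sum_eq_zero fun x _ => h1 _ ?_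
    push_cast; omega
  rw [h2, add_zero, two_mul, Finset.sum_range_add, Finset.sum_add_distrib]
  congr 1
  refine Finset.sum_congr rfl fun x _ => ?_
  push_cast
  rw [add_comm]

theorem sum_zmod {M : Type*} [AddCommMonoid M] {p : ℕ} [NeZero p] (F : ℕ → M) :
    ∑ x : ZMod p, F x.val = ∑ n ∈ range p, F n := by
  rw [← Fin.sum_univ_eq_sum_range]
  obtain ⟨q, rfl⟩ : ∃ q, p = q + 1 := ⟨p - 1, by have := NeZero.ne p; omega⟩
  rfl

/-- the correlation with shift `s` -/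
noncomputable def T (g : ℤ → ℂ) (β : ℝ) (p : ℕ) (s : ℤ) : ℂ :=
  ∑ m ∈ range p, conj (g (m + s)) * g m * exp (2 * Real.pi * I * (β * m))

/-- the windowed cubic phase -/
noncomputable def g (d p : ℕ) (θ : ℝ) (m : ℤ) : ℂ :=
  w d m * exp (2 * Real.pi * I * ((m : ℂ) ^ 3 / p + θ * m))

theorem e_int {p : ℕ} [NeZero p] (j : ℤ) : e ((j : ZMod p)) = exp (2 * Real.pi * I * (j / p)) := by
  unfold e
  rw [ZMod.stdAddChar_coe, mul_div_assoc]

theorem norm_exp' (x : ℝ) : ‖exp (2 * Real.pi * I * x)‖ = 1 := by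
  rw [show (2 * Real.pi * I * x : ℂ) = ((2 * Real.pi * x : ℝ) : ℂ) * I by push_cast; ring]
  exact Complex.norm_exp_ofReal_mul_I _

theorem conj_exp' (x : ℝ) : conj (exp (2 * Real.pi * I * x)) = exp (2 * Real.pi * I * (-x)) := by
  rw [← Complex.exp_conj]
  congr 1
  simp only [map_mul, Complex.conj_I, Complex.conj_ofReal, map_ofNat]
  ring

/-- the function on `ZMod p` -/
noncomputable def VV (d p : ℕ) (β : ℝ) (s : ℤ) (x : ZMod p) : ℂ :=
  (w d x.val * w d (x.val + s) : ℝ) * exp (2 * Real.pi * I * (β * (x.val : ℝ) : ℝ))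

theorem T_eq (d : ℕ) {p : ℕ} [NeZero p] (θ β : ℝ) (s : ℤ) :
    T (g d p θ) β p s = exp (2 * Real.pi * I * (-(θ * s) : ℝ)) * e (((-s ^ 3 : ℤ)) : ZMod p) *
      ∑ x : ZMod p, VV d p β s x * e (((-3 * s : ℤ) : ZMod p) * x ^ 2 + ((-3 * s ^ 2 : ℤ) : ZMod p) * x) := by
  have hp : (p : ℂ) ≠ 0 := by exact_mod_cast NeZero.ne p
  unfold T
  rw [← sum_zmod (fun m : ℕ => conj (g d p θ (m + s)) * g d p θ m *
    exp (2 * Real.pi * I * (β * m))), Finset.mul_sum]
  refine Finset.sum_congr rfl fun x _ => ?_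
  set m : ℕ := x.val with hm
  have hx : x = ((m : ℤ) : ZMod p) := by
    rw [hm]; push_cast; exact (ZMod.natCast_zmod_val x).symm
  have h1 : ((-3 * s : ℤ) : ZMod p) * x ^ 2 + ((-3 * s ^ 2 : ℤ) : ZMod p) * x =
      ((-3 * s * (m : ℤ) ^ 2 - 3 * s ^ 2 * m : ℤ) : ZMod p) := by
    rw [hx]; push_cast; ring
  rw [h1, e_int, e_int]
  unfold VV g
  rw [← hm]
  have h2 : conj (((w d (m + s) : ℝ) : ℂ) * exp (2 * Real.pi * I * ((((m : ℤ) + s : ℤ) : ℂ) ^ 3 / p + θ * (((m : ℤ) + s : ℤ) : ℂ)))) =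
      (w d (m + s) : ℝ) * exp (2 * Real.pi * I * (-((((m : ℤ) + s : ℤ) : ℂ) ^ 3 / p + θ * (((m : ℤ) + s : ℤ) : ℂ)))) := by
    rw [map_mul, Complex.conj_ofReal]
    congr 1
    have := conj_exp' ((((m : ℤ) + s : ℤ) : ℝ) ^ 3 / p + θ * (((m : ℤ) + s : ℤ) : ℝ))
    push_cast at this ⊢
    exact this
  rw [h2]
  have h3 : ∀ a b c f k l : ℂ, ∀ u v : ℂ, u * exp a * (v * exp b) * exp c =
      exp (a + b + c) * (v * u) := by
    intro a b c f k l u v
    rw [exp_add, exp_add]; ring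
  rw [h3 _ _ _ 0 0 0]
  push_cast
  have h4 : ∀ a b c f u v : ℂ, exp a * exp b * (u * v * exp c * exp f) =
      exp (a + b + c + f) * (u * v) := by
    intro a b c f u v
    rw [exp_add, exp_add, exp_add]; ring
  rw [h4]
  congr 2
  ring_nf

theorem norm_T (d : ℕ) {p : ℕ} [NeZero p] (θ β : ℝ) (s : ℤ) :
    ‖T (g d p θ) β p s‖ = ‖∑ x : ZMod p, VV d p β s x *
      e (((-3 * s : ℤ) : ZMod p) * x ^ 2 + ((-3 * s ^ 2 : ℤ) : ZMod p) * x)‖ := by
  rw [T_eq, norm_mul, norm_mul, norm_e, norm_exp']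
  ring

theorem VV_norm (d : ℕ) {p : ℕ} [NeZero p] (β : ℝ) (s : ℤ) :
    ∑ x : ZMod p, ‖VV d p β s x‖ ^ 2 = ∑ m ∈ range p, w d m ^ 2 * w d (m + s) ^ 2 := by
  rw [← sum_zmod (fun m : ℕ => w d m ^ 2 * w d (m + s) ^ 2)]
  refine Finset.sum_congr rfl fun x _ => ?_
  unfold VV
  rw [norm_mul, norm_exp', mul_one, Complex.norm_real, Real.norm_eq_abs, sq_abs, mul_pow]

theorem VV_diff (hd : 0 < d) {p : ℕ} [NeZero p] (hp : 2 * d < p) (β : ℝ) (s : ℤ) :
    ∑ x : ZMod p, ‖VV d p β s (x + 1) - exp (2 * Real.pi * I * β) * VV d p β s x‖ ^ 2 =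
      ∑ m ∈ range p, (w d (m + 1) * w d (m + 1 + s) - w d m * w d (m + s)) ^ 2 := by
  rw [← sum_zmod (fun m : ℕ => (w d (m + 1) * w d (m + 1 + s) - w d m * w d (m + s)) ^ 2)]
  refine Finset.sum_congr rfl fun x _ => ?_
  have hxp := ZMod.val_lt x
  have hp1 : Fact (1 < p) := ⟨by omega⟩
  rcases Nat.lt_or_ge (x.val + 1) p with h | h
  · have h1 : (x + 1).val = x.val + 1 := by
      rw [ZMod.val_add, ZMod.val_one, Nat.mod_eq_of_lt h]
    unfold VV
    rw [h1]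
    have h2 : exp (2 * Real.pi * I * (β * ((x.val + 1 : ℕ) : ℝ) : ℝ)) =
        exp (2 * Real.pi * I * β) * exp (2 * Real.pi * I * (β * (x.val : ℝ) : ℝ)) := by
      rw [← exp_add]; congr 1; push_cast; ring
    rw [h2]
    have h3 : ∀ a b u v : ℂ, a * (u * v) - u * (b * v) = (a - b) * (u * v) := by intros; ring
    rw [h3, norm_mul, norm_mul, norm_exp', norm_exp', mul_one, mul_one, ← Complex.ofReal_sub,
      Complex.norm_real, Real.norm_eq_abs, sq_abs]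
    push_cast
    rfl
  · have h1 : x.val = p - 1 := by omega
    have h2 : (x + 1).val = 0 := by
      rw [ZMod.val_add, ZMod.val_one, h1]
      have : p - 1 + 1 = p := by omega
      rw [this, Nat.mod_self]
    unfold VV
    rw [h2, h1]
    have e1 : w d ((p - 1 : ℕ) : ℤ) = 0 := w_big hd (by omega)
    have e2 : w d (((p - 1 : ℕ) : ℤ) + 1) = 0 := w_big hd (by omega)
    rw [e1, e2]
    simp [w_neg (d := d) (le_refl 0)]

theorem T_bound (hd : 0 < d) {p : ℕ} [NeZero p] (hp : p.Prime) (hp3 : 3 < p) (hdp : 2 * d < p)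
    (θ β : ℝ) {s : ℤ} (hs : s ≠ 0) (hs1 : -(2 * d : ℤ) ≤ s) (hs2 : s ≤ 2 * d) {r : ℝ} (hr0 : 0 ≤ r)
    (hr1 : r < 1) :
    ‖T (g d p θ) β p s‖ ^ 2 ≤ p * ((1 - r) / (1 + r)) * ((1 + r ^ p) / (1 - r ^ p)) *
      (∑ m ∈ range p, w d m ^ 2 * w d (m + s) ^ 2 + r / (1 - r) ^ 2 *
        ∑ m ∈ range p, (w d (m + 1) * w d (m + 1 + s) - w d m * w d (m + s)) ^ 2) := by
  rw [norm_T, ← VV_norm (p := p) d β s, ← VV_diff hd hdp β s]
  refine windowed hp (by omega) _ ?_ _ ?_ hr0 hr1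
  · intro h
    rw [ZMod.intCast_zmod_eq_zero_iff_dvd] at h
    have hpp : Prime (p : ℤ) := Nat.prime_iff_prime_int.1 hp
    rcases hpp.dvd_mul.1 h with h | h
    · have := Int.le_of_dvd (by norm_num) ((dvd_neg.2 h) : (p : ℤ) ∣ -(-3))
      omega
    · rcases lt_or_gt_of_ne hs with h' | h'
      · have := Int.le_of_dvd (by omega) ((dvd_neg.2 h) : (p : ℤ) ∣ -s)
        omega
      · have := Int.le_of_dvd h' h
        omega
  · exact norm_exp' β

end Pool.Agent.Zk62.Sic
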